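import Mathlib

namespace Pool.Agent.Results.MP_3790b3_al.Exists

/-- a self-similar action of `G` on words over `X` with restriction maps `res` -/
structure IsSelfSim {G X : Type} [Group G] (act : G → List X → List X) (res : G → List X → G) :
    Prop where
  act_one : ∀ w, act 1 w = w
  act_mul : ∀ g h w, act (g * h) w = act g (act h w)
  faithful : ∀ g h, (∀ w, act g w = act h w) → g = h
  act_append : ∀ g u v, act g (u ++ v) = act g u ++ act (res g u) v
  res_append : ∀ g u v, res g (u ++ v) = res (res g u) v
  res_mul : ∀ g h u, res (g * h) u = res g (act h u) * res h u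
  act_nil : ∀ g, act g [] = []
  res_nil : ∀ g, res g [] = g

def FiniteState {G X : Type} (res : G → List X → G) : Prop := ∀ g, (Set.range (res g)).Finite

def FinProp {G X : Type} [Group G] (act : G → List X → List X) (res : G → List X → G) : Prop :=
  ∀ g h, ∃ x : List X → G, x [] = 1 ∧ (Set.range fun w => (x (act g w))⁻¹ * res g w * x w).Finite ∧
    (Set.range fun w => (x (act h w))⁻¹ * res h w * x w).Finite

/-- letters `(false, b)` form the adding machine, letters `(true, b)` a swapped pair -/
abbrev X := Bool × Bool

def τ (k : ℤ) (l : X) : X := (l.1, if k % 2 = 0 then l.2 else !l.2)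

def s (k : ℤ) : X → ℤ
  | (false, false) => k / 2
  | (false, true) => (k + 1) / 2
  | (true, false) => k + 2 * (k % 2)
  | (true, true) => k - 2 * (k % 2)

def act : ℤ → List X → List X
  | _, [] => []
  | k, l :: w => τ k l :: act (s k l) w

def res : ℤ → List X → ℤ
  | k, [] => k
  | k, l :: w => res (s k l) w

lemma τ_add (a b : ℤ) (l : X) : τ (a + b) l = τ a (τ b l) := by
  rcases l with ⟨p, _ | _⟩ <;> simp only [τ] <;> split_ifs <;> simp_all <;> omega

lemma s_add (a b : ℤ) (l : X) : s (a + b) l = s a (τ b l) + s b l := by
  rcases l with ⟨_ | _, _ | _⟩ <;> simp only [τ] <;> split_ifs <;> simp [s] <;> omega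

lemma zero (w : List X) : act 0 w = w := by
  induction w with
  | nil => rfl
  | cons l w ih => rcases l with ⟨_ | _, _ | _⟩ <;> simpa [act, s, τ] using ih

lemma add (w : List X) : ∀ a b, act (a + b) w = act a (act b w) ∧
    res (a + b) w = res a (act b w) + res b w := by
  induction w with
  | nil => simp [act, res]
  | cons l w ih => intro a b; simp [act, res, τ_add, s_add, ih]

lemma app (u v : List X) : ∀ a, act a (u ++ v) = act a u ++ act (res a u) v ∧
    res a (u ++ v) = res (res a u) v := by
  induction u with
  | nil => simp [act, res]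
  | cons l w ih => intro a; simp [act, res, ih]

lemma faith (n : ℕ) : ∀ k : ℤ, k.natAbs ≤ n → (∀ w, act k w = w) → k = 0 := by
  induction n with
  | zero => intro k hk _; omega
  | succ n ih =>
    intro k hk h
    have h1 : k % 2 = 0 := by
      by_contra hc
      have := h [(false, false)]
      simp [act, τ, hc] at this
    by_cases h0 : k = 0
    · exact h0
    have := ih (k / 2) (by omega) fun w => by
      have := h ((false, false) :: w)
      simp only [act, s, List.cons.injEq] at this
      exact this.2
    omega

def step (p : ℤ) : X → ℤ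
  | (false, _) => p / 2
  | (true, false) => p - 1
  | (true, true) => p + 1

lemma bound (B : ℤ) (hB : 4 ≤ B) (w : List X) : ∀ c p q : ℤ, |c - q + p| ≤ B →
    |res c w - (act c w).foldl step q + w.foldl step p| ≤ B := by
  induction w with
  | nil => simp [act, res]
  | cons l w ih =>
    intro c p q h
    simp only [act, res, List.foldl_cons]
    apply ih
    rw [abs_le] at h ⊢
    rcases l with ⟨_ | _, _ | _⟩ <;> simp only [τ] <;> split_ifs <;> simp [s, step] <;> omega

lemma grow (n : ℕ) : ∀ k : ℤ, k % 2 = 1 → res k (List.replicate n (true, false)) = k + 2 * n := by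
  induction n with
  | zero => simp [res]
  | succ n ih =>
    intro k hk
    rw [List.replicate_succ, res, ih _ (by simp only [s]; omega)]
    simp only [s]; push_cast; omega

open Multiplicative in
theorem result : ∃ (G X : Type) (_ : Group G) (_ : Finite X) (act : G → List X → List X)
    (res : G → List X → G), IsSelfSim act res ∧ ¬ FiniteState res ∧ FinProp act res := by
  refine ⟨Multiplicative ℤ, X, inferInstance, inferInstance, fun g => act g.toAdd,
    fun g w => ofAdd (res g.toAdd w), ⟨zero, fun g h w => (add w _ _).1, fun g h e => ?_,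
      fun g u v => (app u v _).1, fun g u v => congrArg ofAdd (app u v _).2,
      fun g h u => congrArg ofAdd (add u _ _).2, fun _ => rfl, fun _ => rfl⟩, fun h => ?_,
    fun g h => ?_⟩
  · have := faith _ (-h.toAdd + g.toAdd) le_rfl fun w => by
      rw [(add w _ _).1, e w, ← (add w _ _).1, neg_add_cancel, zero]
    apply toAdd.injective; omega
  · refine Set.infinite_of_injective_forall_mem (f := fun n : ℕ => ofAdd (1 + 2 * (n : ℤ))) ?_ ?_
      (h (ofAdd 1))
    · intro a b hab; simpa using hab
    · intro n; exact ⟨List.replicate n (true, false), congrArg ofAdd (grow n 1 rfl)⟩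
  · have key : ∀ g : Multiplicative ℤ, (Set.range fun w => (ofAdd ((act g.toAdd w).foldl step 0))⁻¹ *
        ofAdd (res g.toAdd w) * ofAdd (w.foldl step 0)).Finite := by
      intro g
      refine ((Set.finite_Icc (-(|g.toAdd| + 4)) (|g.toAdd| + 4)).image ofAdd).subset ?_
      rintro _ ⟨w, rfl⟩
      have := abs_le.1 (bound (|g.toAdd| + 4) (by simp) w g.toAdd 0 0 (by simp))
      exact ⟨_, this, by apply toAdd.injective; simp; ring⟩
    exact ⟨fun w => ofAdd (w.foldl step 0), rfl, key g, key h⟩

end Pool.Agent.Results.MP_3790b3_al.Exists
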